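import Pool.Graph.R_pool_sql_team_seeded_47a924f7.T6.H61.KK.UEnd

set_option autoImplicit false

/-!
# The number of zeros in general sets, from the integral of the defect
-/

namespace Pool.Agent.H562.XL

open Complex MeasureTheory Filter Topology Metric Pool.Agent.Helper242.KK Real
open Pool.Agent.T6.H61.KK

/-- the rectangle `[a, b] × [c, d]` -/
def rbox (a b c d : ℝ) : Set ℂ := {z | a ≤ z.re ∧ z.re ≤ b ∧ c ≤ z.im ∧ z.im ≤ d}

theorem rbox_eq (a b c d : ℝ) :
    rbox a b c d = Complex.measurableEquivRealProd ⁻¹' (Set.Icc a b ×ˢ Set.Icc c d) := by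
  ext z
  simp only [rbox, Set.mem_ofPred_eq, Set.mem_preimage, Complex.measurableEquivRealProd_apply,
    Set.mem_prod, Set.mem_Icc]
  tauto

theorem measurableSet_rbox (a b c d : ℝ) : MeasurableSet (rbox a b c d) := by
  rw [rbox_eq]
  exact Complex.measurableEquivRealProd.measurable (measurableSet_Icc.prod measurableSet_Icc)

theorem volume_rbox {a b c d : ℝ} (hab : a ≤ b) :
    volume (rbox a b c d) = ENNReal.ofReal ((b - a) * (d - c)) := by
  rw [rbox_eq, Complex.volume_preserving_equiv_real_prod.measure_preimage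
    (measurableSet_Icc.prod measurableSet_Icc).nullMeasurableSet, Measure.volume_eq_prod,
    Measure.prod_prod, Real.volume_Icc, Real.volume_Icc, ← ENNReal.ofReal_mul (by linarith)]

theorem rbox_subset_closedBall {a b c d : ℝ} :
    rbox a b c d ⊆ closedBall (0 : ℂ) (|a| + |b| + (|c| + |d|)) := by
  rintro z ⟨h1, h2, h3, h4⟩
  rw [mem_closedBall, dist_zero_right]
  refine (Complex.norm_le_abs_re_add_abs_im _).trans ?_
  have h5 : |z.re| ≤ |a| + |b| := by
    rw [abs_le]
    constructor
    · linarith [neg_abs_le a, abs_nonneg b]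
    · linarith [le_abs_self b, abs_nonneg a]
  have h6 : |z.im| ≤ |c| + |d| := by
    rw [abs_le]
    constructor
    · linarith [neg_abs_le c, abs_nonneg d]
    · linarith [le_abs_self d, abs_nonneg c]
  linarith

theorem closedBall_subset_rbox {a b c d r : ℝ} {w : ℂ} (hw : w ∈ rbox a b c d) :
    closedBall w r ⊆ rbox (a - r) (b + r) (c - r) (d + r) := by
  intro z hz
  rw [mem_closedBall, dist_eq_norm] at hz
  obtain ⟨h1, h2, h3, h4⟩ := hw
  have h5 := (Complex.abs_re_le_norm (z - w)).trans hz
  have h6 := (Complex.abs_im_le_norm (z - w)).trans hz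
  rw [Complex.sub_re, abs_le] at h5
  rw [Complex.sub_im, abs_le] at h6
  exact ⟨by linarith [h5.1], by linarith [h5.2], by linarith [h6.1], by linarith [h6.2]⟩

/-- the upper bound for the number of zeros in a set `S` all of whose `r`-neighbourhood is in `A` -/
theorem count_le_gen {F : ℂ → ℂ} (hF : Differentiable ℂ F) (h0 : ∃ z, F z ≠ 0) {μ K : ℝ}
    (hμ : 0 < μ) {r B : ℝ} (hr : 0 < r) {A S : Set ℂ} (hA : MeasurableSet A)
    (hB : ∀ c ∈ A, closedBall c r ⊆ closedBall (0 : ℂ) B)
    (hS : ∀ u ∈ S, closedBall u r ⊆ A)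
    (hn : ∀ c ∈ A, ∀ z ∈ closedBall c r, 0 ≤ dfc F μ K z) :
    ENNReal.ofReal (π * r ^ 2 / 2) * zc F S ≤
      (∫⁻ c in A, Dfc F μ K c) + ENNReal.ofReal (r ^ 2 / (8 * μ)) * volume A := by
  classical
  have hAB : A ⊆ closedBall (0:ℂ) B := fun c hc => hB c hc (mem_closedBall_self hr.le)
  have hSA : S ⊆ A := fun u hu => hS u hu (mem_closedBall_self hr.le)
  -- Jensen
  have hJ : ∫⁻ c in A, ENNReal.ofReal (Ssum F r c) ≤
      ∫⁻ c in A, (Dfc F μ K c + ENNReal.ofReal (r ^ 2 / (8 * μ))) := by
    apply lintegral_mono_ae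
    filter_upwards [ae_ne_zero hF h0 hAB hA, ae_restrict_mem hA] with c hc hcA
    have hn' : ∀ z ∈ closedBall c r, 0 ≤ dfc F μ K z := hn c hcA
    have h1 := jensen_dfc hF μ K hr.ne' hc
    have h2 : 0 ≤ circleAverage (dfc F μ K) c r := by
      refine circleAverage_nonneg_of_nonneg fun z hz => ?_
      rw [abs_of_pos hr] at hz
      exact hn' z (sphere_subset_closedBall hz)
    unfold Dfc
    rw [← ENNReal.ofReal_add (hn' c (mem_closedBall_self hr.le)) (by positivity)]
    exact ENNReal.ofReal_le_ofReal (by linarith)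
  have hDm : Measurable (Dfc F μ K) := (measurable_dfc hF μ K).ennreal_ofReal
  rw [lintegral_add_left hDm, setLIntegral_const] at hJ
  refine le_trans ?_ hJ
  rw [lint_Ssum hF h0 hr hA hB, zc_eq_sum hF h0 (hSA.trans hAB), Finset.mul_sum,
    Finset.sum_filter]
  refine Finset.sum_le_sum fun u _ => ?_
  split_ifs with hu
  · rw [mul_comm]
    gcongr
    rw [← lint_posLog hr u]
    rw [← lintegral_indicator hA]
    refine lintegral_mono fun c => ?_
    simp only
    by_cases hc : c ∈ A
    · rw [Set.indicator_of_mem hc]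
    · rw [Set.indicator_of_notMem hc]
      have h3 : r < ‖c - u‖ := by
        by_contra hcon
        push Not at hcon
        apply hc
        have h4 : c ∈ closedBall u r := by rwa [mem_closedBall, dist_eq_norm]
        exact hS u hu h4
      rw [Real.posLog, max_eq_left]
      · simp
      · apply Real.log_nonpos (by positivity)
        rw [← div_eq_mul_inv, div_le_one (hr.trans h3)]
        exact h3.le
  · exact zero_le

/-- the lower bound for the number of zeros in a set `S` which contains the `r`-neighbourhood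
of `A` -/
theorem count_ge_gen {F : ℂ → ℂ} (hF : Differentiable ℂ F) (h0 : ∃ z, F z ≠ 0) {μ K : ℝ}
    (hμ : 0 < μ) {r B : ℝ} (hr : 0 < r) {A S : Set ℂ} (hAm : MeasurableSet A)
    (hSm : MeasurableSet S) (hSB : S ⊆ closedBall (0 : ℂ) B)
    (hAS : ∀ c ∈ A, closedBall c r ⊆ S)
    (hn : ∀ z ∈ S, 0 ≤ dfc F μ K z) :
    ENNReal.ofReal (r ^ 2 / (8 * μ)) * volume A ≤
      ENNReal.ofReal (π * r ^ 2 / 2) * zc F S + ∫⁻ c in S, Dfc F μ K c := by
  classical
  have hB : ∀ c ∈ A, closedBall c r ⊆ closedBall (0 : ℂ) B := fun c hc => (hAS c hc).trans hSB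
  have hAB : A ⊆ closedBall (0:ℂ) B := fun c hc => hB c hc (mem_closedBall_self hr.le)
  have hDm : Measurable (Dfc F μ K) := (measurable_dfc hF μ K).ennreal_ofReal
  have hjm : Measurable fun p : ℂ × ℝ =>
      Dfc F μ K (p.1 + r * (Real.cos p.2 + Real.sin p.2 * I)) := hDm.comp (by fun_prop)
  have h2pi : (0:ℝ) < 2 * π := by positivity
  -- Jensen
  have hJ : ∫⁻ c in A, ENNReal.ofReal (2 * π * (r ^ 2 / (8 * μ))) ≤
      ∫⁻ c in A, ((∫⁻ θ in Set.Ioo (-π) π,
        Dfc F μ K (c + r * (Real.cos θ + Real.sin θ * I))) +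
          ENNReal.ofReal (2 * π) * ENNReal.ofReal (Ssum F r c)) := by
    apply lintegral_mono_ae
    filter_upwards [ae_ne_zero hF h0 hAB hAm, ae_restrict_mem hAm] with c hc hcA
    have hn' : ∀ z ∈ closedBall c r, 0 ≤ dfc F μ K z := fun z hz => hn z (hAS c hcA hz)
    have h1 := jensen_lint hF μ K hr hc hn' (Ssum_nonneg hF hr hc)
    rw [← ENNReal.ofReal_mul h2pi.le, h1]
    apply ENNReal.ofReal_le_ofReal
    apply mul_le_mul_of_nonneg_left _ h2pi.le
    linarith [hn' c (mem_closedBall_self hr.le)]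
  rw [lintegral_add_left (by
      exact hjm.lintegral_prod_right'), setLIntegral_const,
    lintegral_const_mul' _ _ ENNReal.ofReal_ne_top] at hJ
  -- the circle averages
  have hC : ∫⁻ c in A, (∫⁻ θ in Set.Ioo (-π) π,
        Dfc F μ K (c + r * (Real.cos θ + Real.sin θ * I))) ≤
      ENNReal.ofReal (2 * π) * ∫⁻ c in S, Dfc F μ K c := by
    rw [lintegral_lintegral_swap hjm.aemeasurable]
    have h1 : ∀ θ : ℝ, ∫⁻ c in A, Dfc F μ K (c + r * (Real.cos θ + Real.sin θ * I)) ≤
        ∫⁻ c in S, Dfc F μ K c := by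
      intro θ
      rw [← lintegral_indicator hAm, ← lintegral_indicator hSm,
        ← lintegral_add_right_eq_self (fun c => S.indicator
          (fun c => Dfc F μ K c) c) (r * (Real.cos θ + Real.sin θ * I))]
      refine lintegral_mono fun c => ?_
      simp only
      by_cases hc : c ∈ A
      · rw [Set.indicator_of_mem hc, Set.indicator_of_mem]
        apply hAS c hc
        rw [mem_closedBall, dist_eq_norm, add_sub_cancel_left, norm_mul, Complex.norm_real,
          Real.norm_of_nonneg hr.le, Complex.ofReal_cos, Complex.ofReal_sin, ← Complex.exp_mul_I,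
          Complex.norm_exp_ofReal_mul_I, mul_one]
      · rw [Set.indicator_of_notMem hc]
        exact zero_le
    calc _ ≤ ∫⁻ θ in Set.Ioo (-π) π, ∫⁻ c in S, Dfc F μ K c :=
          lintegral_mono fun θ => h1 θ
      _ = _ := by
          rw [setLIntegral_const, Real.volume_Ioo, mul_comm]
          congr 2
          ring
  have hS : ∫⁻ c in A, ENNReal.ofReal (Ssum F r c) ≤
      ENNReal.ofReal (π * r ^ 2 / 2) * zc F S := by
    rw [lint_Ssum hF h0 hr hAm hB, zc_eq_sum hF h0 hSB, Finset.mul_sum,
      Finset.sum_filter]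
    refine Finset.sum_le_sum fun u _ => ?_
    split_ifs with hu
    · rw [mul_comm (ENNReal.ofReal (π * r ^ 2 / 2))]
      gcongr
      rw [← lint_posLog hr u]
      exact lintegral_mono' Measure.restrict_le_self le_rfl
    · rw [setLIntegral_congr_fun (g := fun _ => 0) hAm, lintegral_zero, mul_zero]
      intro c hc
      simp only
      have h3 : r < ‖c - u‖ := by
        by_contra hcon
        push Not at hcon
        apply hu
        have h4 : u ∈ closedBall c r := by rwa [mem_closedBall, dist_comm, dist_eq_norm]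
        exact hAS c hc h4
      rw [Real.posLog, max_eq_left]
      · simp
      · apply Real.log_nonpos (by positivity)
        rw [← div_eq_mul_inv, div_le_one (hr.trans h3)]
        exact h3.le
  have h1 : ENNReal.ofReal (2 * π) * (ENNReal.ofReal (r ^ 2 / (8 * μ)) * volume A) ≤
      ENNReal.ofReal (2 * π) * (ENNReal.ofReal (π * r ^ 2 / 2) *
        zc F S + ∫⁻ c in S, Dfc F μ K c) := by
    rw [← mul_assoc, ← ENNReal.ofReal_mul h2pi.le, mul_add]
    calc _ ≤ _ := hJ
      _ ≤ _ := by
          rw [add_comm]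
          gcongr
  have h2 : ENNReal.ofReal (2 * π) ≠ 0 := by
    simpa using Real.pi_pos
  exact (ENNReal.mul_le_mul_iff_right h2 ENNReal.ofReal_ne_top).1 h1

end Pool.Agent.H562.XL
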