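import Mathlib

set_option autoImplicit false

/-!
# The maximal inequality on the line
-/

namespace Pool.Agent.H562.XL

open MeasureTheory Filter Topology Metric

/-- the weak type inequality for the centred maximal function of a measure on the line -/
theorem maximal (ν : Measure ℝ) {t R : ℝ} (ht : 0 < t) :
    volume {y : ℝ | ∃ ρ : ℝ, 0 < ρ ∧ ρ ≤ R ∧ ENNReal.ofReal (t * ρ) < ν (closedBall y ρ)} ≤
      ENNReal.ofReal (10 / t) * ν Set.univ := by
  classical
  set s := {y : ℝ | ∃ ρ : ℝ, 0 < ρ ∧ ρ ≤ R ∧ ENNReal.ofReal (t * ρ) < ν (closedBall y ρ)} with hs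
  have hex : ∀ y : ℝ, ∃ ρ : ℝ, y ∈ s → 0 < ρ ∧ ρ ≤ R ∧ ENNReal.ofReal (t * ρ) < ν (closedBall y ρ) := by
    intro y
    by_cases hy : y ∈ s
    · obtain ⟨ρ, hρ⟩ := hy
      exact ⟨ρ, fun _ => hρ⟩
    · exact ⟨0, fun h => absurd h hy⟩
  choose r hr using hex
  obtain ⟨u, hus, hdis, hcov⟩ := Vitali.exists_disjoint_subfamily_covering_enlargement_closedBall
    s (fun y : ℝ => y) r R (fun a ha => (hr a ha).2.1) 5 (by norm_num)
  have hcount : u.Countable := by
    refine hdis.countable_of_nonempty_interior fun a ha => ?_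
    exact ⟨a, by
      rw [mem_interior]
      exact ⟨ball a (r a), ball_subset_closedBall, isOpen_ball,
        mem_ball_self (hr a (hus ha)).1⟩⟩
  have hsub : s ⊆ ⋃ b ∈ u, closedBall b (5 * r b) := by
    intro a ha
    obtain ⟨b, hb, hab⟩ := hcov a ha
    exact Set.mem_biUnion hb (hab (mem_closedBall_self (hr a ha).1.le))
  calc volume s ≤ volume (⋃ b ∈ u, closedBall b (5 * r b)) := measure_mono hsub
    _ ≤ ∑' b : u, volume (closedBall (b : ℝ) (5 * r b)) := measure_biUnion_le _ hcount _
    _ ≤ ∑' b : u, ENNReal.ofReal (10 / t) * ν (closedBall (b : ℝ) (r b)) := by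
        refine ENNReal.tsum_le_tsum fun b => ?_
        obtain ⟨h1, h2, h3⟩ := hr b (hus b.2)
        rw [Real.volume_closedBall]
        calc ENNReal.ofReal (2 * (5 * r b)) = ENNReal.ofReal (10 / t * (t * r b)) := by
              congr 1
              field_simp
              ring
          _ = ENNReal.ofReal (10 / t) * ENNReal.ofReal (t * r b) :=
              ENNReal.ofReal_mul (by positivity)
          _ ≤ _ := by gcongr
    _ = ENNReal.ofReal (10 / t) * ∑' b : u, ν (closedBall (b : ℝ) (r b)) := ENNReal.tsum_mul_left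
    _ = ENNReal.ofReal (10 / t) * ν (⋃ b ∈ u, closedBall b (r b)) := by
        rw [measure_biUnion hcount hdis (fun b _ => measurableSet_closedBall)]
    _ ≤ _ := by
        gcongr
        exact Set.subset_univ _

end Pool.Agent.H562.XL
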