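import Pool.Agent.H562.XL.Local
import Pool.Agent.H562.XL.Max

set_option autoImplicit false

/-!
# The local law of the zeros of `Ξ_{-μ}` in almost all windows
-/

namespace Pool.Agent.H562.XL

open Complex MeasureTheory Filter Topology Metric Pool.Agent.Helper242.KK
open Pool.Agent.T6.H61.KK Pool.Agent.Y971.KK

/-- the real parts of the zeros in `W`, as a measure on the line -/
noncomputable def zmeas (F : ℂ → ℂ) (W : Set ℂ) : Measure ℝ :=
  Measure.sum (fun z : W => ((analyticOrderAt F (z : ℂ) : ℕ∞) : ENNReal) •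
    Measure.dirac (z : ℂ).re)

theorem zmeas_univ (F : ℂ → ℂ) (W : Set ℂ) : zmeas F W Set.univ = zc F W := by
  unfold zmeas zc
  rw [Measure.sum_apply _ MeasurableSet.univ]
  refine tsum_congr fun z => ?_
  simp

theorem zc_le_zmeas (F : ℂ → ℂ) {W V : Set ℂ} {S : Set ℝ} (hS : MeasurableSet S)
    (hV : ∀ z ∈ V, z ∈ W ∧ z.re ∈ S) : zc F V ≤ zmeas F W S := by
  unfold zmeas zc
  rw [Measure.sum_apply _ hS]
  have h1 : ∀ z : W, (((analyticOrderAt F (z : ℂ) : ℕ∞) : ENNReal) •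
      Measure.dirac (z : ℂ).re) S =
      (fun z : ℂ => ((analyticOrderAt F z : ℕ∞) : ENNReal) * S.indicator 1 z.re) z := by
    intro z
    simp [Measure.dirac_apply' _ hS]
  rw [tsum_congr h1, tsum_subtype W
    (fun z : ℂ => ((analyticOrderAt F z : ℕ∞) : ENNReal) * S.indicator 1 z.re),
    tsum_subtype V (fun z => ((analyticOrderAt F (z : ℂ) : ℕ∞) : ENNReal))]
  refine ENNReal.tsum_le_tsum fun z => ?_
  by_cases hz : z ∈ V
  · obtain ⟨h2, h3⟩ := hV z hz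
    rw [Set.indicator_of_mem hz, Set.indicator_of_mem h2, Set.indicator_of_mem h3]
    simp
  · rw [Set.indicator_of_notMem hz]
    exact zero_le

/-- the real parts of the defect in `W`, as a measure on the line -/
noncomputable def dmeas (D : ℂ → ENNReal) (W : Set ℂ) : Measure ℝ :=
  ((volume.restrict W).withDensity D).map Complex.re

theorem dmeas_univ (D : ℂ → ENNReal) (W : Set ℂ) : dmeas D W Set.univ = ∫⁻ z in W, D z := by
  unfold dmeas
  rw [Measure.map_apply Complex.measurable_re MeasurableSet.univ, Set.preimage_univ,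
    withDensity_apply _ MeasurableSet.univ, Measure.restrict_univ]

theorem lint_le_dmeas (D : ℂ → ENNReal) {W V : Set ℂ} {S : Set ℝ} (hS : MeasurableSet S)
    (hW : MeasurableSet W) (hV : ∀ z ∈ V, z ∈ W ∧ z.re ∈ S) :
    ∫⁻ z in V, D z ≤ dmeas D W S := by
  unfold dmeas
  have hm : MeasurableSet (Complex.re ⁻¹' S) := Complex.measurable_re hS
  rw [Measure.map_apply Complex.measurable_re hS, withDensity_apply _ hm,
    Measure.restrict_restrict hm]
  exact lintegral_mono_set fun z hz => ⟨(hV z hz).2, (hV z hz).1⟩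

/-- few zeros outside the strip -/
theorem outer_few {μ δ : ℝ} (hμ : 0 < μ) (hδ : 0 < δ) (hδ1 : δ ≤ 1 / 8) :
    ∀ᶠ T : ℝ in atTop, zc (XiM μ) {z | |z.re| ≤ 4 * T ∧ (1 - 2 * δ) * μ * Real.log T < |z.im|} ≤
      ENNReal.ofReal (24 * δ * T * Real.log T) := by
  have hpi := Real.pi_gt_three
  have hpi0 := Real.pi_pos
  have hten : Tendsto (fun T : ℝ => 4 * T) atTop atTop := tendsto_id.const_mul_atTop (by norm_num)
  filter_upwards [hten.eventually (vert_upper hμ hδ),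
    hten.eventually (strip_lower (κ := 1 - 3 * δ) hμ (by linarith) hδ),
    ev_log (2 / δ), eventually_ge_atTop 4] with T h1 h2 h3 h4
  have hT0 : 0 < T := by linarith
  rw [div_le_iff₀ hδ] at h3
  have hl4 : Real.log (4 * T) = Real.log 4 + Real.log T := Real.log_mul (by norm_num) hT0.ne'
  have hl2 : Real.log 4 ≤ 2 := by
    have h5 : Real.log 4 = 2 * Real.log 2 := by
      rw [show (4:ℝ) = 2 ^ 2 by norm_num, Real.log_pow]
      norm_num
    have := Real.log_le_sub_one_of_pos (show (0:ℝ) < 2 by norm_num)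
    linarith
  have hl40 : 0 ≤ Real.log 4 := Real.log_nonneg (by norm_num)
  set l := Real.log T with hl
  have hlpos : 2 ≤ l := by nlinarith
  rw [hl4] at h1 h2
  have hdis : Disjoint {z : ℂ | |z.re| ≤ 4 * T ∧ (1 - 2 * δ) * μ * l < |z.im|}
      {z : ℂ | |z.re| ≤ 4 * T ∧ |z.im| ≤ (1 - 3 * δ) * μ * (Real.log 4 + l)} := by
    rw [Set.disjoint_left]
    rintro z ⟨-, a⟩ ⟨-, b⟩
    have h5 : (1 - 3 * δ) * (Real.log 4 + l) ≤ (1 - 2 * δ) * l := by
      have e1 : (1 - 3 * δ) * Real.log 4 ≤ 1 * 2 := mul_le_mul (by linarith) hl2 hl40 (by norm_num)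
      have e2 : (1 - 3 * δ) * (Real.log 4 + l) = (1 - 3 * δ) * Real.log 4 + (1 - 2 * δ) * l - l * δ := by
        ring
      linarith
    have h6 := mul_le_mul_of_nonneg_right h5 hμ.le
    linarith
  have h5 : zc (XiM μ) {z : ℂ | |z.re| ≤ 4 * T ∧ (1 - 2 * δ) * μ * l < |z.im|} +
      zc (XiM μ) {z : ℂ | |z.re| ≤ 4 * T ∧ |z.im| ≤ (1 - 3 * δ) * μ * (Real.log 4 + l)} ≤
      zc (XiM μ) {z : ℂ | |z.re| ≤ 4 * T} := by
    rw [← zc_union_disjoint _ hdis]
    apply zc_mono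
    rintro z (⟨a, -⟩ | ⟨a, -⟩) <;> exact a
  have h6 : zc (XiM μ) {z : ℂ | |z.re| ≤ 4 * T ∧ (1 - 2 * δ) * μ * l < |z.im|} +
      ENNReal.ofReal (((1 - 3 * δ) / Real.pi - δ) * (4 * T) * (Real.log 4 + l)) ≤
      ENNReal.ofReal (24 * δ * T * l) +
      ENNReal.ofReal (((1 - 3 * δ) / Real.pi - δ) * (4 * T) * (Real.log 4 + l)) := by
    refine (add_le_add le_rfl h2).trans (h5.trans (h1.trans ?_))
    have h7 : 0 ≤ (1 - 3 * δ) / Real.pi - δ := by
      have : 1 / 8 ≤ (1 - 3 * δ) / Real.pi := by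
        rw [le_div_iff₀ hpi0]
        have := Real.pi_lt_d2
        linarith
      linarith
    rw [← ENNReal.ofReal_add (by positivity) (by positivity)]
    apply ENNReal.ofReal_le_ofReal
    have h8 : (1 - 3 * δ) / Real.pi = 1 / Real.pi - 3 * (δ / Real.pi) := by ring
    have h9 : δ / Real.pi ≤ δ / 3 := by gcongr
    have h10 : (1 / Real.pi + δ) - ((1 - 3 * δ) / Real.pi - δ) ≤ 3 * δ := by
      rw [h8]
      linarith
    have h11 : Real.log 4 + l ≤ 2 * l := by linarith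
    have h12 : ((1 / Real.pi + δ) - ((1 - 3 * δ) / Real.pi - δ)) * (4 * T * (Real.log 4 + l)) ≤
        (3 * δ) * (4 * T * (2 * l)) := by
      apply mul_le_mul h10 _ (by positivity) (by positivity)
      gcongr
    linarith
  exact (ENNReal.add_le_add_iff_right ENNReal.ofReal_ne_top).1 h6

/-- the two-sided law in all rectangles of the window of radius `c` about `y` -/
def Law (μ ε T y c : ℝ) : Prop :=
  (∀ a b v₁ v₂ : ℝ, -c ≤ a → a ≤ b → b ≤ c → -1 ≤ v₁ → v₁ ≤ v₂ → v₂ ≤ 1 →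
    ENNReal.ofReal ((b - a) * (v₂ - v₁) * Real.log T / (4 * Real.pi) - ε * c * Real.log T) ≤
      zc (XiM μ) (rbox (y + a) (y + b) (v₁ * μ * Real.log T) (v₂ * μ * Real.log T)) ∧
    zc (XiM μ) (rbox (y + a) (y + b) (v₁ * μ * Real.log T) (v₂ * μ * Real.log T)) ≤
      ENNReal.ofReal ((b - a) * (v₂ - v₁) * Real.log T / (4 * Real.pi) + ε * c * Real.log T)) ∧
  zc (XiM μ) {z : ℂ | |z.re - y| ≤ c ∧ μ * Real.log T < |z.im|} ≤
    ENNReal.ofReal (ε * c * Real.log T)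

/-- the law for small `ε` -/
theorem local_law_small {μ ε : ℝ} (hμ : 0 < μ) (hε : 0 < ε) (hε1 : ε ≤ 1) :
    ∀ᶠ T : ℝ in atTop, ∃ E : Set ℝ, volume E ≤ ENNReal.ofReal (ε * T) ∧
      ∀ y : ℝ, T ≤ y → y ≤ 2 * T → y ∉ E → ∀ c : ℝ, Real.log T ≤ c → c ≤ T / 2 →
        Law μ ε T y c := by
  obtain ⟨δ, hδ0, hδ8, hδε, hδε2⟩ : ∃ δ : ℝ, 0 < δ ∧ δ ≤ 1 / 8 ∧ δ * (1 + μ) ≤ ε / 4 ∧
      δ * 960 ≤ ε ^ 2 := by
    refine ⟨min (1 / 8) (min (ε / (4 * (1 + μ))) (ε ^ 2 / 960)), ?_, min_le_left _ _, ?_, ?_⟩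
    · exact lt_min (by norm_num) (lt_min (by positivity) (by positivity))
    · have h1 : min (1 / 8) (min (ε / (4 * (1 + μ))) (ε ^ 2 / 960)) ≤ ε / (4 * (1 + μ)) :=
        (min_le_right _ _).trans (min_le_left _ _)
      rw [le_div_iff₀ (by positivity)] at h1
      linarith
    · have h1 : min (1 / 8) (min (ε / (4 * (1 + μ))) (ε ^ 2 / 960)) ≤ ε ^ 2 / 960 :=
        (min_le_right _ _).trans (min_le_right _ _)
      rwa [le_div_iff₀ (by norm_num)] at h1
  have hδμ : δ * μ ≤ 1 / 4 := by nlinarith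
  obtain ⟨τ, hτ⟩ : ∃ τ, τ = ε * δ ^ 2 * μ ^ 2 / (4 * (1 + μ)) := ⟨_, rfl⟩
  have hτ0 : 0 < τ := by rw [hτ]; positivity
  obtain ⟨η, hη⟩ : ∃ η, η = ε * τ / 320 := ⟨_, rfl⟩
  have hη0 : 0 < η := by rw [hη]; positivity
  obtain ⟨T₂, hT₂1, hnn⟩ := dfc_FX_nonneg hμ
  have hten : Tendsto (fun T : ℝ => 2 * T) atTop atTop := tendsto_id.const_mul_atTop (by norm_num)
  filter_upwards [hten.eventually (defect_long hμ 3 (1 - δ) η (by linarith) (by linarith) hη0),
    outer_few hμ hδ0 hδ8, eventually_ge_atTop T₂, eventually_ge_atTop 8, ev_log 1,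
    ev_log_small (c := 1) one_pos] with T e1 e2 e3 e4 e5 e6
  have hT0 : 0 < T := by linarith
  have hl2 : Real.log (2 * T) = Real.log 2 + Real.log T := Real.log_mul (by norm_num) hT0.ne'
  have hlog2 : Real.log 2 ≤ 1 := by
    have := Real.log_le_sub_one_of_pos (show (0:ℝ) < 2 by norm_num)
    linarith
  have hlog20 : 0 ≤ Real.log 2 := Real.log_nonneg (by norm_num)
  obtain ⟨K, hK⟩ : ∃ K, K = 4 * Real.log (2 * T) := ⟨_, rfl⟩
  rw [← hK] at e1
  set l := Real.log T with hl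
  have hl0 : 0 < l := by linarith
  -- the two measures
  obtain ⟨W₁, hW₁⟩ : ∃ W₁, W₁ = sbox (2 * T / 2 ^ 3) (2 * (2 * T)) ((1 - δ) * μ * Real.log (2 * T)) :=
    ⟨_, rfl⟩
  obtain ⟨W₂, hW₂⟩ : ∃ W₂, W₂ = {z : ℂ | |z.re| ≤ 4 * T ∧ (1 - 2 * δ) * μ * l < |z.im|} := ⟨_, rfl⟩
  rw [← hW₁] at e1
  rw [← hW₂] at e2
  obtain ⟨ν₁, hν₁⟩ : ∃ ν₁, ν₁ = dmeas (Dfc (FX μ) μ K) W₁ := ⟨_, rfl⟩
  obtain ⟨ν₂, hν₂⟩ : ∃ ν₂, ν₂ = zmeas (XiM μ) W₂ := ⟨_, rfl⟩
  have hν₁u : ν₁ Set.univ ≤ ENNReal.ofReal (16 * η * T * l ^ 3) := by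
    rw [hν₁, dmeas_univ]
    refine e1.trans (ENNReal.ofReal_le_ofReal ?_)
    have h1 : Real.log (2 * T) ^ 3 ≤ (2 * l) ^ 3 :=
      pow_le_pow_left₀ (by rw [hl2]; positivity) (by rw [hl2]; linarith) 3
    calc η * (2 * T) * Real.log (2 * T) ^ 3 ≤ η * (2 * T) * (2 * l) ^ 3 := by gcongr
      _ = _ := by ring
  have hν₂u : ν₂ Set.univ ≤ ENNReal.ofReal (24 * δ * T * l) := by
    rw [hν₂, zmeas_univ]
    exact e2
  have ht₁ : 0 < τ * l ^ 3 := by positivity
  have ht₂ : 0 < ε / 2 * l := by positivity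
  have hmax₁ := maximal ν₁ (R := 3 / 4 * T) ht₁
  have hmax₂ := maximal ν₂ (R := 3 / 4 * T) ht₂
  obtain ⟨E₁, hE₁⟩ : ∃ E₁, E₁ = {y : ℝ | ∃ ρ : ℝ, 0 < ρ ∧ ρ ≤ 3 / 4 * T ∧
    ENNReal.ofReal (τ * l ^ 3 * ρ) < ν₁ (closedBall y ρ)} := ⟨_, rfl⟩
  obtain ⟨E₂, hE₂⟩ : ∃ E₂, E₂ = {y : ℝ | ∃ ρ : ℝ, 0 < ρ ∧ ρ ≤ 3 / 4 * T ∧
    ENNReal.ofReal (ε / 2 * l * ρ) < ν₂ (closedBall y ρ)} := ⟨_, rfl⟩
  rw [← hE₁] at hmax₁
  rw [← hE₂] at hmax₂
  refine ⟨E₁ ∪ E₂, ?_, ?_⟩
  · calc volume (E₁ ∪ E₂) ≤ volume E₁ + volume E₂ := measure_union_le _ _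
      _ ≤ ENNReal.ofReal (10 / (τ * l ^ 3)) * ENNReal.ofReal (16 * η * T * l ^ 3) +
          ENNReal.ofReal (10 / (ε / 2 * l)) * ENNReal.ofReal (24 * δ * T * l) := by
          refine add_le_add (hmax₁.trans ?_) (hmax₂.trans ?_)
          · gcongr
          · gcongr
      _ = ENNReal.ofReal (160 * η / τ * T + 480 * δ / ε * T) := by
          rw [← ENNReal.ofReal_mul (by positivity), ← ENNReal.ofReal_mul (by positivity),
            ← ENNReal.ofReal_add (by positivity) (by positivity)]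
          congr 1
          field_simp
          ring
      _ ≤ _ := by
          apply ENNReal.ofReal_le_ofReal
          have h1 : 160 * η / τ = ε / 2 := by
            rw [hη]
            field_simp
            ring
          have h2 : 480 * δ / ε ≤ ε / 2 := by
            rw [div_le_iff₀ hε]
            nlinarith
          have h3 : 480 * δ / ε * T ≤ ε / 2 * T := mul_le_mul_of_nonneg_right h2 hT0.le
          rw [h1]
          linarith
  · intro y hy1 hy2 hyE c hc1 hc2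
    have hyE₁ : y ∉ E₁ := fun h => hyE (Or.inl h)
    have hyE₂ : y ∉ E₂ := fun h => hyE (Or.inr h)
    rw [hE₁] at hyE₁
    rw [hE₂] at hyE₂
    simp only [Set.mem_ofPred_eq, not_exists, not_and, not_lt] at hyE₁ hyE₂
    have hc0 : 0 < c := hl0.trans_le hc1
    have hr4 : δ * μ * l ≤ T / 4 := by
      have : δ * μ * l ≤ 1 / 4 * T := mul_le_mul hδμ (by linarith) hl0.le (by norm_num)
      linarith
    have hr4c : δ * μ * l ≤ c / 4 := by
      have : δ * μ * l ≤ 1 / 4 * c := mul_le_mul hδμ hc1 hl0.le (by norm_num)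
      linarith
    have hρ₁ := hyE₁ (c + δ * μ * l) (by positivity) (by linarith)
    have hρ₂ := hyE₂ c hc0 (by linarith)
    have hD : ∫⁻ z in rbox (y - (c + δ * μ * l)) (y + (c + δ * μ * l)) (-((1 - δ) * μ * l))
        ((1 - δ) * μ * l), Dfc (FX μ) μ K z ≤
      ENNReal.ofReal (ε * δ ^ 2 * μ ^ 2 / (4 * (1 + μ)) * (c + δ * μ * l) * l ^ 3) := by
      rw [← hτ]
      refine le_trans ?_ (hρ₁.trans (le_of_eq (by congr 1; ring)))
      rw [hν₁]
      apply lint_le_dmeas _ measurableSet_closedBall (by rw [hW₁]; exact measurableSet_sbox _ _ _)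
      rintro z ⟨h1, h2, h3, h4⟩
      refine ⟨?_, ?_⟩
      · rw [hW₁]
        refine ⟨?_, ?_, ?_⟩
        · have h5 : |z.im| ≤ (1 - δ) * μ * l := abs_le.2 ⟨h3, h4⟩
          refine h5.trans ?_
          have h6 : l ≤ Real.log (2 * T) := by rw [hl2]; linarith
          have h7 : 0 ≤ (1 - δ) * μ := mul_nonneg (by linarith) hμ.le
          exact mul_le_mul_of_nonneg_left h6 h7
        · linarith
        · linarith
      · rw [mem_closedBall, Real.dist_eq, abs_le]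
        constructor <;> linarith
    have hZ : zc (XiM μ) {z : ℂ | |z.re - y| ≤ c ∧ (1 - 2 * δ) * μ * l < |z.im|} ≤
      ENNReal.ofReal (ε / 2 * c * l) := by
      refine le_trans ?_ (hρ₂.trans (le_of_eq (by congr 1; ring)))
      rw [hν₂]
      apply zc_le_zmeas _ measurableSet_closedBall
      rintro z ⟨h1, h2⟩
      rw [abs_le] at h1
      refine ⟨?_, ?_⟩
      · rw [hW₂]
        refine ⟨?_, h2⟩
        rw [abs_le]
        constructor <;> linarith
      · rw [mem_closedBall, Real.dist_eq, abs_le]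
        exact h1
    have hnn' : ∀ z : ℂ, y - 3 / 2 * c ≤ z.re → z.re ≤ y + 3 / 2 * c →
        0 ≤ dfc (FX μ) μ K z := by
      intro z h1 h2
      rw [hK]
      exact hnn (2 * T) (by linarith) z (by linarith) (by linarith)
    refine ⟨fun a b v₁ v₂ ha hab hb hv₁ hv hv₂ => ⟨?_, ?_⟩, ?_⟩
    · have h := window_ge (differentiable_FX hμ.le) (FX_ne hμ.le) hμ hδ0 hδ8 hδε hl0 hc1 ha hb
        hv₁ hv hv₂ (K := K) (y := y) (fun z h1 h2 => hnn' z (by linarith) (by linarith)) hD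
      rwa [zc_FX hμ.le] at h
    · have h := window_le (differentiable_FX hμ.le) (FX_ne hμ.le) hμ hδ0 hδ8 hδε hl0 hc1 ha hab hb
        hv₁ hv hv₂ (K := K) (y := y) hnn' hδμ hD (by rw [zc_FX hμ.le]; exact hZ)
      rwa [zc_FX hμ.le] at h
    · refine (zc_mono _ ?_).trans (hZ.trans (ENNReal.ofReal_le_ofReal ?_))
      · rintro z ⟨h1, h2⟩
        refine ⟨h1, lt_of_le_of_lt ?_ h2⟩
        have h3 : 0 ≤ δ * (μ * l) := by positivity
        linarith
      · have : 0 ≤ ε * c * l := by positivity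
        linarith

/-- **The local law.** -/
theorem local_law {μ ε : ℝ} (hμ : 0 < μ) (hε : 0 < ε) :
    ∀ᶠ T : ℝ in atTop, ∃ E : Set ℝ, volume E ≤ ENNReal.ofReal (ε * T) ∧
      ∀ y : ℝ, T ≤ y → y ≤ 2 * T → y ∉ E → ∀ c : ℝ, Real.log T ≤ c → c ≤ T / 2 →
        Law μ ε T y c := by
  have h0 : 0 < min ε 1 := lt_min hε one_pos
  filter_upwards [local_law_small hμ h0 (min_le_right _ _), eventually_ge_atTop 1] with T hT hT1
  obtain ⟨E, hE, h⟩ := hT
  have hl0 : 0 ≤ Real.log T := Real.log_nonneg hT1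
  refine ⟨E, hE.trans (ENNReal.ofReal_le_ofReal ?_), fun y hy1 hy2 hyE c hc1 hc2 => ?_⟩
  · exact mul_le_mul_of_nonneg_right (min_le_left _ _) (by linarith)
  · obtain ⟨h1, h2⟩ := h y hy1 hy2 hyE c hc1 hc2
    have hc0 : 0 ≤ c := hl0.trans hc1
    have h3 : min ε 1 * c * Real.log T ≤ ε * c * Real.log T := by
      gcongr
      exact min_le_left _ _
    refine ⟨fun a b v₁ v₂ ha hab hb hv₁ hv hv₂ => ?_, h2.trans (ENNReal.ofReal_le_ofReal h3)⟩
    obtain ⟨h4, h5⟩ := h1 a b v₁ v₂ ha hab hb hv₁ hv hv₂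
    exact ⟨(ENNReal.ofReal_le_ofReal (by linarith)).trans h4,
      h5.trans (ENNReal.ofReal_le_ofReal (by linarith))⟩

end Pool.Agent.H562.XL
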