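import Pool.Agent.H562.XL.Count

set_option autoImplicit false

/-!
# The local law in one window, from the bound of the defect
-/

namespace Pool.Agent.H562.XL

open Complex MeasureTheory Filter Topology Metric Pool.Agent.Helper242.KK
open Pool.Agent.T6.H61.KK

/-- cancel the kernel mass, lower bound -/
theorem cancel_ge {P X Y M : ℝ} {N : ENNReal} (hP : 0 < P) (hY : 0 ≤ Y)
    (h : ENNReal.ofReal X ≤ ENNReal.ofReal P * N + ENNReal.ofReal Y) (hM : P * M ≤ X - Y) :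
    ENNReal.ofReal M ≤ N := by
  have h1 : ENNReal.ofReal (X - Y) ≤ ENNReal.ofReal P * N := by
    rw [ENNReal.ofReal_sub _ hY]
    exact tsub_le_iff_right.2 h
  have h2 : ENNReal.ofReal P * ENNReal.ofReal M ≤ ENNReal.ofReal P * N := by
    rw [← ENNReal.ofReal_mul hP.le]
    exact (ENNReal.ofReal_le_ofReal hM).trans h1
  exact (ENNReal.mul_le_mul_iff_right (by simpa using hP) ENNReal.ofReal_ne_top).1 h2

/-- cancel the kernel mass, upper bound -/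
theorem cancel_le {P X M : ℝ} {N : ENNReal} (hP : 0 < P)
    (h : ENNReal.ofReal P * N ≤ ENNReal.ofReal X) (hM : X ≤ P * M) :
    N ≤ ENNReal.ofReal M := by
  have h2 : ENNReal.ofReal P * N ≤ ENNReal.ofReal P * ENNReal.ofReal M := by
    rw [← ENNReal.ofReal_mul hP.le]
    exact h.trans (ENNReal.ofReal_le_ofReal hM)
  exact (ENNReal.mul_le_mul_iff_right (by simpa using hP) ENNReal.ofReal_ne_top).1 h2

/-- the real inequality for the lower bound -/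
theorem real_ge {μ δ ε ℓ c D V W : ℝ} (hμ : 0 < μ) (hδ : 0 < δ) (hδ8 : δ ≤ 1 / 8)
    (hδε : δ * (1 + μ) ≤ ε / 4) (hℓ : 0 < ℓ) (hc : ℓ ≤ c)
    (hD : 2 * (δ * μ * ℓ) ≤ D) (hDc : D ≤ 2 * c) (hV : V ≤ 2) (hVW : V - 2 * δ ≤ W) :
    Real.pi * (δ * μ * ℓ) ^ 2 / 2 * (D * V * ℓ / (4 * Real.pi) - ε * c * ℓ) ≤
      (δ * μ * ℓ) ^ 2 / (8 * μ) * ((D - 2 * (δ * μ * ℓ)) * ((W - 2 * δ) * (μ * ℓ))) -
      ε * δ ^ 2 * μ ^ 2 / (4 * (1 + μ)) * (c + δ * μ * ℓ) * ℓ ^ 3 := by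
  have hpi := Real.pi_gt_three
  have hpi0 := Real.pi_pos
  have hc0 : 0 < c := hℓ.trans_le hc
  have hε : 0 < ε := by
    have : 0 < δ * (1 + μ) := by positivity
    linarith
  have hY : ε * δ ^ 2 * μ ^ 2 / (4 * (1 + μ)) * (c + δ * μ * ℓ) * ℓ ^ 3 ≤
      (δ * μ * ℓ) ^ 2 * (ε * c * ℓ / 4) := by
    have e1 : c + δ * μ * ℓ ≤ (1 + μ) * c := by
      have : δ * μ * ℓ ≤ 1 * μ * c := by
        apply mul_le_mul _ hc hℓ.le (by positivity)
        apply mul_le_mul_of_nonneg_right _ hμ.le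
        linarith
      linarith
    calc ε * δ ^ 2 * μ ^ 2 / (4 * (1 + μ)) * (c + δ * μ * ℓ) * ℓ ^ 3 ≤
        ε * δ ^ 2 * μ ^ 2 / (4 * (1 + μ)) * ((1 + μ) * c) * ℓ ^ 3 := by gcongr
      _ = (δ * μ * ℓ) ^ 2 * (ε * c * ℓ / 4) := by
          field_simp
  obtain ⟨r, hr⟩ : ∃ r, r = δ * μ * ℓ := ⟨_, rfl⟩
  rw [← hr] at hY hD ⊢
  have hr0 : 0 < r := by rw [hr]; positivity
  have hrc : r ≤ δ * μ * c := by
    rw [hr]
    exact mul_le_mul_of_nonneg_left hc (by positivity)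
  have hx1 : V - 4 * δ ≤ W - 2 * δ := by linarith
  have hx2 : (D - 2 * r) * (V - 4 * δ) ≤ (D - 2 * r) * (W - 2 * δ) :=
    mul_le_mul_of_nonneg_left hx1 (by linarith)
  have hx3 : D * V - (8 * δ * c + 4 * r) ≤ (D - 2 * r) * (V - 4 * δ) := by
    have e1 : 4 * δ * D ≤ 4 * δ * (2 * c) := mul_le_mul_of_nonneg_left (by linarith) (by positivity)
    have e2 : 2 * r * V ≤ 2 * r * 2 := mul_le_mul_of_nonneg_left (by linarith) (by positivity)
    have e3 : 0 ≤ 8 * δ * r := by positivity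
    have e4 : (D - 2 * r) * (V - 4 * δ) = D * V - 4 * δ * D - 2 * r * V + 8 * δ * r := by ring
    rw [e4]
    linarith
  have hx4 : 8 * δ * c + 4 * r ≤ 3 * ε * c := by
    have e2 : δ * (1 + μ) * c ≤ ε / 4 * c := mul_le_mul_of_nonneg_right hδε hc0.le
    have e3 : 0 ≤ δ * μ * c := by positivity
    have e4 : 0 ≤ ε * c := by positivity
    have e5 : δ * (1 + μ) * c = δ * c + δ * μ * c := by ring
    rw [e5] at e2
    linarith
  have hx5 : D * V - 3 * ε * c ≤ (D - 2 * r) * (W - 2 * δ) := by linarith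
  have hX : Real.pi * r ^ 2 / 2 * (D * V * ℓ / (4 * Real.pi)
      - 3 * ε * c * ℓ / (4 * Real.pi)) ≤
      r ^ 2 / (8 * μ) * ((D - 2 * r) * ((W - 2 * δ) * (μ * ℓ))) := by
    have e1 := mul_le_mul_of_nonneg_left hx5 (show 0 ≤ r ^ 2 * ℓ / 8 by positivity)
    have e2 : Real.pi * r ^ 2 / 2 * (D * V * ℓ / (4 * Real.pi)
      - 3 * ε * c * ℓ / (4 * Real.pi)) = r ^ 2 * ℓ / 8 * (D * V - 3 * ε * c) := by
      field_simp
      ring
    have e3 : r ^ 2 / (8 * μ) * ((D - 2 * r) * ((W - 2 * δ) * (μ * ℓ))) =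
        r ^ 2 * ℓ / 8 * ((D - 2 * r) * (W - 2 * δ)) := by
      field_simp
    rw [e2, e3]
    exact e1
  have hY2 : r ^ 2 * (ε * c * ℓ / 4) ≤ Real.pi * r ^ 2 / 2 * (ε * c * ℓ / 6) := by
    have e1 : 0 ≤ r ^ 2 * (ε * c * ℓ) := by positivity
    have e2 := mul_le_mul_of_nonneg_right hpi.le e1
    linarith
  have hfin : 3 * ε * c * ℓ / (4 * Real.pi) ≤ ε * c * ℓ / 4 := by
    rw [div_le_iff₀ (by positivity)]
    have e1 : 0 ≤ ε * c * ℓ := by positivity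
    have e2 := mul_le_mul_of_nonneg_right hpi.le e1
    linarith
  have hP : 0 < Real.pi * r ^ 2 / 2 := by positivity
  have e4 : 0 ≤ ε * c * ℓ := by positivity
  calc Real.pi * r ^ 2 / 2 * (D * V * ℓ / (4 * Real.pi) - ε * c * ℓ) ≤
      Real.pi * r ^ 2 / 2 * ((D * V * ℓ / (4 * Real.pi)
        - 3 * ε * c * ℓ / (4 * Real.pi)) - ε * c * ℓ / 6) := by
        apply mul_le_mul_of_nonneg_left _ hP.le
        linarith
    _ ≤ _ := by
        rw [mul_sub]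
        linarith

/-- the lower bound in one window -/
theorem window_ge {F : ℂ → ℂ} (hF : Differentiable ℂ F) (h0 : ∃ z, F z ≠ 0)
    {μ K δ ε ℓ y c a b v₁ v₂ : ℝ} (hμ : 0 < μ) (hδ : 0 < δ) (hδ8 : δ ≤ 1 / 8)
    (hδε : δ * (1 + μ) ≤ ε / 4) (hℓ : 0 < ℓ) (hc : ℓ ≤ c)
    (ha : -c ≤ a) (hb : b ≤ c) (hv₁ : -1 ≤ v₁) (hv : v₁ ≤ v₂) (hv₂ : v₂ ≤ 1)
    (hn : ∀ z : ℂ, y - c ≤ z.re → z.re ≤ y + c → 0 ≤ dfc F μ K z)
    (hD : ∫⁻ z in rbox (y - (c + δ * μ * ℓ)) (y + (c + δ * μ * ℓ)) (-((1 - δ) * μ * ℓ))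
        ((1 - δ) * μ * ℓ), Dfc F μ K z ≤
      ENNReal.ofReal (ε * δ ^ 2 * μ ^ 2 / (4 * (1 + μ)) * (c + δ * μ * ℓ) * ℓ ^ 3)) :
    ENNReal.ofReal ((b - a) * (v₂ - v₁) * ℓ / (4 * Real.pi) - ε * c * ℓ) ≤
      zc F (rbox (y + a) (y + b) (v₁ * μ * ℓ) (v₂ * μ * ℓ)) := by
  have hpi := Real.pi_gt_three
  have hpi0 := Real.pi_pos
  obtain ⟨r, hr⟩ : ∃ r, r = δ * μ * ℓ := ⟨_, rfl⟩
  have hr0 : 0 < r := by rw [hr]; positivity
  have hc0 : 0 < c := hℓ.trans_le hc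
  have hε : 0 < ε := by
    have : 0 < δ * (1 + μ) := by positivity
    linarith
  obtain ⟨w₁, hw₁⟩ : ∃ w₁, w₁ = max v₁ (-(1 - δ)) := ⟨_, rfl⟩
  obtain ⟨w₂, hw₂⟩ : ∃ w₂, w₂ = min v₂ (1 - δ) := ⟨_, rfl⟩
  have hw1a : v₁ ≤ w₁ := by rw [hw₁]; exact le_max_left _ _
  have hw1b : -(1 - δ) ≤ w₁ := by rw [hw₁]; exact le_max_right _ _
  have hw1c : w₁ ≤ v₁ + δ := by rw [hw₁]; exact max_le (by linarith) (by linarith)
  have hw2a : w₂ ≤ v₂ := by rw [hw₂]; exact min_le_left _ _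
  have hw2b : w₂ ≤ 1 - δ := by rw [hw₂]; exact min_le_right _ _
  have hw2c : v₂ - δ ≤ w₂ := by rw [hw₂]; exact le_min (by linarith) (by linarith)
  have hδμ : δ ≤ δ * (1 + μ) := by nlinarith
  have hδμ' : δ * μ ≤ δ * (1 + μ) := by nlinarith
  -- small cases
  have hsmall : (b - a) * (v₂ - v₁) ≤ 8 * (δ * (1 + μ)) * c ∨
      (2 * r ≤ b - a ∧ 2 * δ ≤ w₂ - w₁) := by
    rcases lt_or_ge (b - a) (2 * r) with h1 | h1
    · left
      have h2 : (b - a) * (v₂ - v₁) ≤ (2 * r) * 2 := by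
        apply mul_le_mul h1.le (by linarith) (by linarith) (by positivity)
      have h3 : r ≤ δ * (1 + μ) * c := by
        rw [hr]
        exact mul_le_mul hδμ' hc hℓ.le (by positivity)
      have h4 : 0 ≤ δ * (1 + μ) * c := by positivity
      linarith
    · rcases lt_or_ge (w₂ - w₁) (2 * δ) with h2 | h2
      · left
        have h3 : v₂ - v₁ ≤ 4 * δ := by linarith
        have h4 : (b - a) * (v₂ - v₁) ≤ (2 * c) * (4 * δ) := by
          apply mul_le_mul (by linarith) h3 (by linarith) (by positivity)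
        have h5 : δ * c ≤ δ * (1 + μ) * c := mul_le_mul_of_nonneg_right hδμ hc0.le
        linarith
      · exact Or.inr ⟨h1, h2⟩
  rcases hsmall with hsm | ⟨hb1, hb2⟩
  · rw [ENNReal.ofReal_eq_zero.2]
    · exact zero_le
    · have h1 : 8 * (δ * (1 + μ)) * c ≤ 2 * ε * c := by
        have := mul_le_mul_of_nonneg_right hδε hc0.le
        linarith
      have h2 : (b - a) * (v₂ - v₁) * ℓ ≤ 2 * ε * c * ℓ :=
        mul_le_mul_of_nonneg_right (hsm.trans h1) hℓ.le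
      have h3 : (b - a) * (v₂ - v₁) * ℓ / (4 * Real.pi) ≤ ε * c * ℓ := by
        rw [div_le_iff₀ (by positivity)]
        have h4 : 0 < ε * c * ℓ := by positivity
        nlinarith
      linarith
  -- the main case
  obtain ⟨S, hS⟩ : ∃ S, S = rbox (y + a) (y + b) (w₁ * μ * ℓ) (w₂ * μ * ℓ) := ⟨_, rfl⟩
  obtain ⟨A, hA⟩ : ∃ A, A = rbox (y + a + r) (y + b - r) (w₁ * μ * ℓ + r) (w₂ * μ * ℓ - r) :=
    ⟨_, rfl⟩
  have hμℓ : 0 < μ * ℓ := by positivity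
  have hSR : S ⊆ rbox (y + a) (y + b) (v₁ * μ * ℓ) (v₂ * μ * ℓ) := by
    rw [hS]
    rintro z ⟨h1, h2, h3, h4⟩
    have h5 := mul_le_mul_of_nonneg_right hw1a hμℓ.le
    have h6 := mul_le_mul_of_nonneg_right hw2a hμℓ.le
    exact ⟨h1, h2, by linarith, by linarith⟩
  have hSD : S ⊆ rbox (y - (c + δ * μ * ℓ)) (y + (c + δ * μ * ℓ)) (-((1 - δ) * μ * ℓ))
        ((1 - δ) * μ * ℓ) := by
    rw [hS, ← hr]
    rintro z ⟨h1, h2, h3, h4⟩
    have h5 := mul_le_mul_of_nonneg_right hw1b hμℓ.le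
    have h6 := mul_le_mul_of_nonneg_right hw2b hμℓ.le
    exact ⟨by linarith, by linarith, by linarith, by linarith⟩
  have hAS : ∀ w ∈ A, closedBall w r ⊆ S := by
    intro w hw
    rw [hA] at hw
    have := closedBall_subset_rbox (r := r) hw
    rw [hS]
    simpa using this
  have hn' : ∀ z ∈ S, 0 ≤ dfc F μ K z := by
    intro z hz
    rw [hS] at hz
    exact hn z (by linarith [hz.1]) (by linarith [hz.2.1])
  have hcount := count_ge_gen hF h0 hμ (K := K) hr0 (A := A) (S := S)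
    (by rw [hA]; exact measurableSet_rbox _ _ _ _) (by rw [hS]; exact measurableSet_rbox _ _ _ _)
    (by rw [hS]; exact rbox_subset_closedBall) hAS hn'
  have hvol : volume A = ENNReal.ofReal ((b - a - 2 * r) * ((w₂ - w₁ - 2 * δ) * (μ * ℓ))) := by
    rw [hA, volume_rbox (by linarith)]
    congr 1
    rw [hr]
    ring
  rw [hvol, ← ENNReal.ofReal_mul (by positivity)] at hcount
  have hcount2 := hcount.trans (add_le_add le_rfl ((lintegral_mono_set hSD).trans hD))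
  refine le_trans ?_ (zc_mono F hSR)
  refine cancel_ge (P := Real.pi * r ^ 2 / 2) (by positivity) (by positivity) hcount2 ?_
  rw [hr]
  exact real_ge hμ hδ hδ8 hδε hℓ hc (by rw [← hr]; exact hb1) (by linarith) (by linarith)
    (by linarith)

/-- the real inequality for the upper bound -/
theorem real_le {μ δ ε ℓ c D V W : ℝ} (hμ : 0 < μ) (hδ : 0 < δ) (hδ8 : δ ≤ 1 / 8)
    (hδε : δ * (1 + μ) ≤ ε / 4) (hℓ : 0 < ℓ) (hc : ℓ ≤ c)
    (hD : 0 ≤ D) (hDc : D ≤ 2 * c) (hV0 : 0 ≤ V) (hV : V ≤ 2) (hVW : W ≤ V) :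
    ε * δ ^ 2 * μ ^ 2 / (4 * (1 + μ)) * (c + δ * μ * ℓ) * ℓ ^ 3 +
      (δ * μ * ℓ) ^ 2 / (8 * μ) * ((D + 2 * (δ * μ * ℓ)) * ((W + 2 * δ) * (μ * ℓ))) ≤
      Real.pi * (δ * μ * ℓ) ^ 2 / 2 * (D * V * ℓ / (4 * Real.pi) + ε * c * ℓ / 2) := by
  have hpi := Real.pi_gt_three
  have hpi0 := Real.pi_pos
  have hc0 : 0 < c := hℓ.trans_le hc
  have hε : 0 < ε := by
    have : 0 < δ * (1 + μ) := by positivity
    linarith
  have hY : ε * δ ^ 2 * μ ^ 2 / (4 * (1 + μ)) * (c + δ * μ * ℓ) * ℓ ^ 3 ≤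
      (δ * μ * ℓ) ^ 2 * (ε * c * ℓ / 4) := by
    have e1 : c + δ * μ * ℓ ≤ (1 + μ) * c := by
      have : δ * μ * ℓ ≤ 1 * μ * c := by
        apply mul_le_mul _ hc hℓ.le (by positivity)
        apply mul_le_mul_of_nonneg_right _ hμ.le
        linarith
      linarith
    calc ε * δ ^ 2 * μ ^ 2 / (4 * (1 + μ)) * (c + δ * μ * ℓ) * ℓ ^ 3 ≤
        ε * δ ^ 2 * μ ^ 2 / (4 * (1 + μ)) * ((1 + μ) * c) * ℓ ^ 3 := by gcongr
      _ = (δ * μ * ℓ) ^ 2 * (ε * c * ℓ / 4) := by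
          field_simp
  obtain ⟨r, hr⟩ : ∃ r, r = δ * μ * ℓ := ⟨_, rfl⟩
  rw [← hr] at hY ⊢
  have hr0 : 0 < r := by rw [hr]; positivity
  have hrc : r ≤ δ * μ * c := by
    rw [hr]
    exact mul_le_mul_of_nonneg_left hc (by positivity)
  have hx2 : (D + 2 * r) * (W + 2 * δ) ≤ (D + 2 * r) * (V + 2 * δ) :=
    mul_le_mul_of_nonneg_left (by linarith) (by positivity)
  have hx3 : (D + 2 * r) * (V + 2 * δ) ≤ D * V + (4 * δ * c + 5 * r) := by
    have e1 : 2 * δ * D ≤ 2 * δ * (2 * c) := mul_le_mul_of_nonneg_left (by linarith) (by positivity)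
    have e2 : 2 * r * V ≤ 2 * r * 2 := mul_le_mul_of_nonneg_left (by linarith) (by positivity)
    have e3 : 4 * r * δ ≤ 4 * r * (1 / 8) := mul_le_mul_of_nonneg_left (by linarith) (by positivity)
    have e4 : (D + 2 * r) * (V + 2 * δ) = D * V + 2 * δ * D + 2 * r * V + 4 * r * δ := by ring
    rw [e4]
    linarith
  have hx4 : 4 * δ * c + 5 * r ≤ 3 * ε * c := by
    have e2 : δ * (1 + μ) * c ≤ ε / 4 * c := mul_le_mul_of_nonneg_right hδε hc0.le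
    have e3 : 0 ≤ δ * μ * c := by positivity
    have e4 : 0 ≤ ε * c := by positivity
    have e5 : δ * (1 + μ) * c = δ * c + δ * μ * c := by ring
    have e6 : 0 ≤ δ * c := by positivity
    rw [e5] at e2
    linarith
  have hx5 : (D + 2 * r) * (W + 2 * δ) ≤ D * V + 3 * ε * c := by linarith
  have hX : r ^ 2 / (8 * μ) * ((D + 2 * r) * ((W + 2 * δ) * (μ * ℓ))) ≤
      Real.pi * r ^ 2 / 2 * (D * V * ℓ / (4 * Real.pi)
      + 3 * ε * c * ℓ / (4 * Real.pi)) := by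
    have e1 := mul_le_mul_of_nonneg_left hx5 (show 0 ≤ r ^ 2 * ℓ / 8 by positivity)
    have e2 : Real.pi * r ^ 2 / 2 * (D * V * ℓ / (4 * Real.pi)
      + 3 * ε * c * ℓ / (4 * Real.pi)) = r ^ 2 * ℓ / 8 * (D * V + 3 * ε * c) := by
      field_simp
      ring
    have e3 : r ^ 2 / (8 * μ) * ((D + 2 * r) * ((W + 2 * δ) * (μ * ℓ))) =
        r ^ 2 * ℓ / 8 * ((D + 2 * r) * (W + 2 * δ)) := by
      field_simp
    rw [e2, e3]
    exact e1
  have hY2 : r ^ 2 * (ε * c * ℓ / 4) ≤ Real.pi * r ^ 2 / 2 * (ε * c * ℓ / 6) := by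
    have e1 : 0 ≤ r ^ 2 * (ε * c * ℓ) := by positivity
    have e2 := mul_le_mul_of_nonneg_right hpi.le e1
    linarith
  have hfin : 3 * ε * c * ℓ / (4 * Real.pi) ≤ ε * c * ℓ / 4 := by
    rw [div_le_iff₀ (by positivity)]
    have e1 : 0 ≤ ε * c * ℓ := by positivity
    have e2 := mul_le_mul_of_nonneg_right hpi.le e1
    linarith
  have hP : 0 < Real.pi * r ^ 2 / 2 := by positivity
  have e4 : 0 ≤ ε * c * ℓ := by positivity
  calc _ ≤ Real.pi * r ^ 2 / 2 * (ε * c * ℓ / 6) + Real.pi * r ^ 2 / 2 * (D * V * ℓ / (4 * Real.pi)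
      + 3 * ε * c * ℓ / (4 * Real.pi)) := by linarith
    _ = Real.pi * r ^ 2 / 2 * (ε * c * ℓ / 6 + (D * V * ℓ / (4 * Real.pi)
      + 3 * ε * c * ℓ / (4 * Real.pi))) := by ring
    _ ≤ _ := by
        apply mul_le_mul_of_nonneg_left _ hP.le
        linarith

/-- the upper bound in one window -/
theorem window_le {F : ℂ → ℂ} (hF : Differentiable ℂ F) (h0 : ∃ z, F z ≠ 0)
    {μ K δ ε ℓ y c a b v₁ v₂ : ℝ} (hμ : 0 < μ) (hδ : 0 < δ) (hδ8 : δ ≤ 1 / 8)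
    (hδε : δ * (1 + μ) ≤ ε / 4) (hℓ : 0 < ℓ) (hc : ℓ ≤ c)
    (ha : -c ≤ a) (hab : a ≤ b) (hb : b ≤ c) (hv₁ : -1 ≤ v₁) (hv : v₁ ≤ v₂) (hv₂ : v₂ ≤ 1)
    (hn : ∀ z : ℂ, y - 3 / 2 * c ≤ z.re → z.re ≤ y + 3 / 2 * c → 0 ≤ dfc F μ K z)
    (hδμ : δ * μ ≤ 1 / 4)
    (hD : ∫⁻ z in rbox (y - (c + δ * μ * ℓ)) (y + (c + δ * μ * ℓ)) (-((1 - δ) * μ * ℓ))
        ((1 - δ) * μ * ℓ), Dfc F μ K z ≤
      ENNReal.ofReal (ε * δ ^ 2 * μ ^ 2 / (4 * (1 + μ)) * (c + δ * μ * ℓ) * ℓ ^ 3))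
    (hZ : zc F {z : ℂ | |z.re - y| ≤ c ∧ (1 - 2 * δ) * μ * ℓ < |z.im|} ≤
      ENNReal.ofReal (ε / 2 * c * ℓ)) :
    zc F (rbox (y + a) (y + b) (v₁ * μ * ℓ) (v₂ * μ * ℓ)) ≤
      ENNReal.ofReal ((b - a) * (v₂ - v₁) * ℓ / (4 * Real.pi) + ε * c * ℓ) := by
  have hpi0 := Real.pi_pos
  obtain ⟨r, hr⟩ : ∃ r, r = δ * μ * ℓ := ⟨_, rfl⟩
  have hr0 : 0 < r := by rw [hr]; positivity
  have hc0 : 0 < c := hℓ.trans_le hc
  have hε : 0 < ε := by
    have : 0 < δ * (1 + μ) := by positivity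
    linarith
  have hrc : r ≤ c / 4 := by
    have h1 : δ * μ * ℓ ≤ 1 / 4 * c := mul_le_mul hδμ hc hℓ.le (by norm_num)
    rw [hr]
    linarith
  obtain ⟨w₁, hw₁⟩ : ∃ w₁, w₁ = max v₁ (-(1 - 2 * δ)) := ⟨_, rfl⟩
  obtain ⟨w₂, hw₂⟩ : ∃ w₂, w₂ = min v₂ (1 - 2 * δ) := ⟨_, rfl⟩
  have hw1a : v₁ ≤ w₁ := by rw [hw₁]; exact le_max_left _ _
  have hw1b : -(1 - 2 * δ) ≤ w₁ := by rw [hw₁]; exact le_max_right _ _
  have hw2a : w₂ ≤ v₂ := by rw [hw₂]; exact min_le_left _ _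
  have hw2b : w₂ ≤ 1 - 2 * δ := by rw [hw₂]; exact min_le_right _ _
  have hμℓ : 0 < μ * ℓ := by positivity
  obtain ⟨S, hS⟩ : ∃ S, S = rbox (y + a) (y + b) (w₁ * μ * ℓ) (w₂ * μ * ℓ) := ⟨_, rfl⟩
  obtain ⟨A, hA⟩ : ∃ A, A = rbox (y + a - r) (y + b + r) (w₁ * μ * ℓ - r) (w₂ * μ * ℓ + r) :=
    ⟨_, rfl⟩
  obtain ⟨Z, hZd⟩ : ∃ Z, Z = {z : ℂ | |z.re - y| ≤ c ∧ (1 - 2 * δ) * μ * ℓ < |z.im|} := ⟨_, rfl⟩
  have hcov : rbox (y + a) (y + b) (v₁ * μ * ℓ) (v₂ * μ * ℓ) ⊆ S ∪ Z := by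
    rintro z ⟨h1, h2, h3, h4⟩
    rcases le_or_gt |z.im| ((1 - 2 * δ) * μ * ℓ) with h5 | h5
    · left
      rw [hS]
      rw [abs_le] at h5
      refine ⟨h1, h2, ?_, ?_⟩
      · rw [hw₁, mul_assoc, max_mul_of_nonneg _ _ hμℓ.le]
        exact max_le (by linarith) (by linarith [h5.1])
      · rw [hw₂, mul_assoc, min_mul_of_nonneg _ _ hμℓ.le]
        exact le_min (by linarith) (by linarith [h5.2])
    · right
      rw [hZd]
      exact ⟨by rw [abs_le]; constructor <;> linarith, h5⟩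
  have hAD : A ⊆ rbox (y - (c + δ * μ * ℓ)) (y + (c + δ * μ * ℓ)) (-((1 - δ) * μ * ℓ))
        ((1 - δ) * μ * ℓ) := by
    rw [hA, hr]
    rintro z ⟨h1, h2, h3, h4⟩
    have h5 := mul_le_mul_of_nonneg_right hw1b hμℓ.le
    have h6 := mul_le_mul_of_nonneg_right hw2b hμℓ.le
    exact ⟨by linarith, by linarith, by linarith, by linarith⟩
  have hSA : ∀ u ∈ S, closedBall u r ⊆ A := by
    intro u hu
    rw [hS] at hu
    rw [hA]
    exact closedBall_subset_rbox hu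
  have hAB : ∀ w ∈ A, closedBall w r ⊆ closedBall (0 : ℂ) (|y + a - r - r| + |y + b + r + r| +
      (|w₁ * μ * ℓ - r - r| + |w₂ * μ * ℓ + r + r|)) := by
    intro w hw
    rw [hA] at hw
    exact (closedBall_subset_rbox hw).trans rbox_subset_closedBall
  have hn' : ∀ w ∈ A, ∀ z ∈ closedBall w r, 0 ≤ dfc F μ K z := by
    intro w hw z hz
    rw [hA] at hw
    have h1 := closedBall_subset_rbox hw hz
    exact hn z (by linarith [h1.1]) (by linarith [h1.2.1])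
  have hcount := count_le_gen hF h0 hμ (K := K) hr0 (A := A) (S := S)
    (by rw [hA]; exact measurableSet_rbox _ _ _ _) hAB hSA hn'
  have hvol : volume A = ENNReal.ofReal ((b - a + 2 * r) * ((w₂ - w₁ + 2 * δ) * (μ * ℓ))) := by
    rw [hA, volume_rbox (by linarith)]
    congr 1
    rw [hr]
    ring
  have hYn : 0 ≤ ε * δ ^ 2 * μ ^ 2 / (4 * (1 + μ)) * (c + δ * μ * ℓ) * ℓ ^ 3 := by positivity
  have hreal := real_le (D := b - a) (V := v₂ - v₁) (W := w₂ - w₁) hμ hδ hδ8 hδε hℓ hc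
    (by linarith) (by linarith) (by linarith) (by linarith) (by linarith)
  have hS2 : zc F S ≤ ENNReal.ofReal ((b - a) * (v₂ - v₁) * ℓ / (4 * Real.pi) +
      ε * c * ℓ / 2) := by
    rcases le_or_gt 0 (w₂ - w₁ + 2 * δ) with hw | hw
    · have hAn : 0 ≤ r ^ 2 / (8 * μ) * ((b - a + 2 * r) * ((w₂ - w₁ + 2 * δ) * (μ * ℓ))) := by
        have : 0 ≤ b - a + 2 * r := by linarith
        positivity
      refine cancel_le (P := Real.pi * r ^ 2 / 2) (by positivity)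
        (X := ε * δ ^ 2 * μ ^ 2 / (4 * (1 + μ)) * (c + δ * μ * ℓ) * ℓ ^ 3 +
          r ^ 2 / (8 * μ) * ((b - a + 2 * r) * ((w₂ - w₁ + 2 * δ) * (μ * ℓ)))) ?_ ?_
      · rw [ENNReal.ofReal_add hYn hAn]
        refine hcount.trans (add_le_add ((lintegral_mono_set hAD).trans hD) ?_)
        rw [hvol, ← ENNReal.ofReal_mul (by positivity)]
      · rw [hr]
        exact hreal
    · have hSe : S = ∅ := by
        rw [hS]
        ext z
        simp only [rbox, Set.mem_ofPred_eq, Set.mem_empty_iff_false, iff_false]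
        rintro ⟨-, -, h3, h4⟩
        have h5 : w₁ * (μ * ℓ) ≤ w₂ * (μ * ℓ) := by linarith
        have h6 := le_of_mul_le_mul_right h5 hμℓ
        linarith
      rw [hSe]
      simp [zc]
  refine (zc_mono F hcov).trans ((zc_union_le F S Z).trans ?_)
  have hmain : 0 ≤ (b - a) * (v₂ - v₁) * ℓ / (4 * Real.pi) := by
    have h1 : 0 ≤ b - a := by linarith
    have h2 : 0 ≤ v₂ - v₁ := by linarith
    positivity
  calc zc F S + zc F Z ≤ ENNReal.ofReal ((b - a) * (v₂ - v₁) * ℓ / (4 * Real.pi) +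
      ε * c * ℓ / 2) + ENNReal.ofReal (ε / 2 * c * ℓ) := add_le_add hS2 (by rw [hZd]; exact hZ)
    _ = _ := by
        rw [← ENNReal.ofReal_add (by positivity) (by positivity)]
        congr 1
        ring

end Pool.Agent.H562.XL
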